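import Pool.Agent.Q66.RX.Stm

/-!
Job CRIT of project RX.
-/

set_option autoImplicit false

namespace Pool.Agent.Q203.RX

open Topology Filter Set MeasureTheory Pool.Agent.Q66.RX

theorem rr_one : rr 1 = 1 := by
  unfold rr
  rw [Circle.coe_one, Complex.one_re]

theorem rr_cont : Continuous rr := by
  unfold rr
  exact Complex.continuous_re.comp continuous_subtype_val

/-- the evaluation at `g` -/
noncomputable def evg {G : Type} [CommGroup G] [TopologicalSpace G] [IsTopologicalGroup G] (g : G) :
    PontryaginDual (PontryaginDual G) :=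
  ({ toFun := fun χ => χ g
     map_one' := rfl
     map_mul' := fun _ _ => rfl
     continuous_toFun := by
      have h1 : Continuous fun q : (G →ₜ* Circle) => q g := continuous_eval_const g
      exact h1 } : PontryaginDual G →ₜ* Circle)

theorem evg_apply {G : Type} [CommGroup G] [TopologicalSpace G] [IsTopologicalGroup G] (g : G)
    (χ : PontryaginDual G) : evg g χ = χ g := rfl

theorem t_CRIT (hE : S_EQ) : S_CRIT := by
  intro G _ _ _ _ h1 h2 h3
  let e : G →* PontryaginDual (PontryaginDual G) :=
    { toFun := evg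
      map_one' := by
        apply ContinuousMonoidHom.ext
        intro χ
        exact map_one χ
      map_mul' := fun a b => by
        apply ContinuousMonoidHom.ext
        intro χ
        exact map_mul χ a b }
  have he : ∀ g χ, e g χ = χ g := fun _ _ => rfl
  have hind := (ContinuousMonoidHom.isInducing_toContinuousMap (PontryaginDual G) Circle)
  have hinj : Function.Injective e := by
    rw [injective_iff_map_eq_one]
    intro g hg
    by_contra hne
    have hW : {g}ᶜ ∈ 𝓝 (1 : G) := isOpen_compl_singleton.mem_nhds (fun h => hne h.symm)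
    obtain ⟨L, -, hL⟩ := h2 _ hW
    have h4 := hL g (fun χ _ => by
      rw [← he g χ, hg]
      change 0 ≤ rr 1
      rw [rr_one]
      exact zero_le_one)
    exact h4 rfl
  have hsurj : Function.Surjective e := by
    intro Φ
    obtain ⟨g, hg⟩ := h3 Φ
    refine ⟨g, ?_⟩
    apply ContinuousMonoidHom.ext
    intro χ
    exact (hg χ).symm
  have hcont : Continuous e := by
    apply continuous_of_continuousAt_one e
    change Tendsto e (𝓝 1) (𝓝 (e 1))
    rw [map_one]
    refine (hind.tendsto_nhds_iff (f := fun g : G => (e g : PontryaginDual G →ₜ* Circle))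
      (y := (1 : PontryaginDual G →ₜ* Circle))).2 ?_
    refine ContinuousMap.tendsto_nhds_compactOpen.2 ?_
    intro L hL U hU hLU
    rcases L.eq_empty_or_nonempty with rfl | ⟨χ₀, hχ₀⟩
    · exact Eventually.of_forall fun _ => mapsTo_empty _ _
    have h1U : (1 : Circle) ∈ U := hLU hχ₀
    obtain ⟨W, hW, hW'⟩ := h1 L hL
    obtain ⟨W', hW1, hW2⟩ := hE G W hW U (hU.mem_nhds h1U)
    filter_upwards [hW1] with g hg χ hχ
    exact hW2 (χ : G →* Circle) (fun g' hg' => hW' χ hχ g' hg') g hg
  have hopen : IsOpenMap e := by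
    have hkey : ∀ W ∈ 𝓝 (1 : G), e '' W ∈ 𝓝 (1 : PontryaginDual (PontryaginDual G)) := by
      intro W hW
      obtain ⟨L, hLc, hL⟩ := h2 W hW
      have hO : IsOpen {z : Circle | 0 < rr z} := isOpen_lt continuous_const rr_cont
      have h5 : IsOpen {g : C(PontryaginDual G, Circle) | MapsTo g L {z : Circle | 0 < rr z}} :=
        ContinuousMap.isOpen_setOfPred_mapsTo hLc hO
      have h6 := h5.preimage hind.continuous
      have h7 : (1 : PontryaginDual G →ₜ* Circle) ∈ ContinuousMonoidHom.toContinuousMap ⁻¹'
          {g : C(PontryaginDual G, Circle) | MapsTo g L {z : Circle | 0 < rr z}} := by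
        intro v _
        change 0 < rr (1 : Circle)
        rw [rr_one]
        exact one_pos
      refine mem_of_superset (h6.mem_nhds h7) ?_
      intro Φ hΦ
      obtain ⟨g, hg⟩ := h3 Φ
      refine ⟨g, hL g (fun χ hχ => ?_), ?_⟩
      · rw [← hg χ]
        exact (hΦ hχ).le
      · apply ContinuousMonoidHom.ext
        intro χ
        exact (hg χ).symm
    rw [isOpenMap_iff_nhds_le]
    intro g
    have h8 : 𝓝 (e g) ≤ map e (𝓝 g) := by
      intro S hS
      have h9 : e ⁻¹' S ∈ 𝓝 g := hS
      have h10 : (fun z => g * z) ⁻¹' (e ⁻¹' S) ∈ 𝓝 (1 : G) := by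
        have : Tendsto (fun z => g * z) (𝓝 1) (𝓝 (g * 1)) :=
          (continuous_const.mul continuous_id).continuousAt
        rw [mul_one] at this
        exact this h9
      have h11 := hkey _ h10
      have h12 : Tendsto (fun Φ => (e g)⁻¹ * Φ) (𝓝 (e g)) (𝓝 ((e g)⁻¹ * e g)) :=
        (continuous_const.mul continuous_id).continuousAt
      rw [inv_mul_cancel] at h12
      filter_upwards [h12 h11] with Φ hΦ
      obtain ⟨z, hz, hz'⟩ := hΦ
      have h13 : Φ = e (g * z) := by
        rw [map_mul, hz', mul_inv_cancel_left]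
      rw [h13]
      exact hz
    exact h8
  refine ⟨(Equiv.ofBijective e ⟨hinj, hsurj⟩).toHomeomorphOfContinuousOpen hcont hopen,
    fun g χ => rfl⟩

end Pool.Agent.Q203.RX
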