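import Pool.Agent.Q66.RX.Stm

/-!
Jobs EXTY and EQ of project RX.
-/

set_option autoImplicit false

namespace Pool.Agent.Q203.RX

open Topology Filter Set MeasureTheory Pool.Agent.Q66.RX

theorem t_EQ (hc : S_CIR) : S_EQ := by
  intro G _ _ _ W hW V hV
  obtain ⟨n, hn⟩ := hc V hV
  refine ⟨⋂ k ∈ Finset.range (n + 1), (fun g : G => g ^ (2 ^ k)) ⁻¹' W, ?_, ?_⟩
  · rw [Filter.biInter_finset_mem]
    intro k _
    have h : ContinuousAt (fun g : G => g ^ (2 ^ k)) 1 := (continuous_pow _).continuousAt
    apply h
    simpa using hW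
  · intro f hf g hg
    apply hn
    intro k hk
    have h1 : g ^ (2 ^ k) ∈ W := by
      have := mem_iInter₂.1 hg k (Finset.mem_range.2 (by omega))
      exact this
    rw [← map_pow]
    exact hf _ h1

theorem t_EXTY (hb : S_BMG) (he : S_EXT) (hd : S_DIV) : S_EXTY := by
  intro I X _ _ _ 𝓕 V K x h3 hV hmul hK hVK hx hlim
  -- the family of a character
  let fam : PontryaginDual X →* (ℕ → I → Circle) :=
    { toFun := fun β n i => β (x n i)
      map_one' := rfl
      map_mul' := fun _ _ => rfl }
  have hfam : ∀ (β : PontryaginDual X) n i, fam β n i = β (x n i) := fun _ _ _ => rfl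
  have hB : ∀ (m : ℕ) (β : PontryaginDual X), (∀ v ∈ V m, 0 < rr (β v)) → fam β ∈ Gam I 𝓕 := by
    intro m β hβ
    refine ⟨fun V' hV' => ?_, fun n => ?_⟩
    · obtain ⟨k, hk⟩ := hb X V (fun n => mem_of_mem_nhds (hV n)) hmul V' hV'
      filter_upwards [eventually_ge_atTop (m + k)] with n hn i
      exact hk m (β : X →* Circle) (fun v hv => (hβ v hv).le) n hn _ (hx n i)
    · have h1 : Tendsto (fun z : X => β z) (𝓝 1) (𝓝 (β 1)) :=
        (map_continuous β).continuousAt
      rw [map_one] at h1
      exact h1.comp (hlim n)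
  let B : Subgroup (PontryaginDual X) := (Gam I 𝓕).comap fam
  let f : B →* Gam I 𝓕 :=
    { toFun := fun β => ⟨fam β.1, β.2⟩
      map_one' := by
        apply Subtype.ext
        exact map_one fam
      map_mul' := fun a b => by
        apply Subtype.ext
        exact map_mul fam a.1 b.1 }
  obtain ⟨σ, hσ⟩ := he (PontryaginDual X) (Gam I 𝓕) (fun d n hn => hd I 𝓕 d n hn) B f
  have hσ' : ∀ (m : ℕ) (β : PontryaginDual X), (∀ v ∈ V m, 0 < rr (β v)) →
      ∀ n i, (σ β).1 n i = β (x n i) := by
    intro m β hβ n i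
    have h := hσ ⟨β, hB m β hβ⟩
    have h' : σ β = f ⟨β, hB m β hβ⟩ := h
    rw [h']
    rfl
  -- a neighbourhood of one in the dual
  have hN : ∀ᶠ β : PontryaginDual X in 𝓝 1, ∀ v ∈ V 0, 0 < rr (β v) := by
    have hO : IsOpen {z : Circle | 0 < rr z} := by
      have hc : Continuous rr := by
        unfold rr
        exact Complex.continuous_re.comp continuous_subtype_val
      exact isOpen_lt continuous_const hc
    have h1 : IsOpen {g : C(X, Circle) | MapsTo g K {z : Circle | 0 < rr z}} :=
      ContinuousMap.isOpen_setOfPred_mapsTo hK hO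
    have h2 : Continuous (ContinuousMonoidHom.toContinuousMap : (X →ₜ* Circle) → C(X, Circle)) :=
      (ContinuousMonoidHom.isInducing_toContinuousMap X Circle).continuous
    have h3 := h1.preimage h2
    have h4 : (1 : X →ₜ* Circle) ∈ ContinuousMonoidHom.toContinuousMap ⁻¹'
        {g : C(X, Circle) | MapsTo g K {z : Circle | 0 < rr z}} := by
      intro v _
      change 0 < rr (1 : Circle)
      unfold rr
      rw [Circle.coe_one, Complex.one_re]
      exact one_pos
    have h5 := h3.mem_nhds h4
    filter_upwards [h5] with β hβ v hv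
    exact hβ (hVK hv)
  have hev : ∀ n i, ∃ y : X, ∀ ψ : PontryaginDual X, (σ ψ).1 n i = ψ y := by
    intro n i
    let g : PontryaginDual X →* Circle :=
      { toFun := fun ψ => (σ ψ).1 n i
        map_one' := by rw [map_one]; rfl
        map_mul' := fun a b => by rw [map_mul]; rfl }
    have hg : Continuous g := by
      apply continuous_of_continuousAt_one g
      have h1 : (fun β : PontryaginDual X => β (x n i)) =ᶠ[𝓝 1] g := by
        filter_upwards [hN] with β hβ
        exact (hσ' 0 β hβ n i).symm
      have h2 : Continuous fun β : PontryaginDual X => (β (x n i) : Circle) := by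
        have h1 : Continuous fun q : (X →ₜ* Circle) => q (x n i) :=
          continuous_eval_const (x n i)
        exact h1
      exact h2.continuousAt.congr h1
    obtain ⟨y, hy⟩ := h3 (({ g with continuous_toFun := hg } : PontryaginDual X →ₜ* Circle))
    exact ⟨y, fun ψ => hy ψ⟩
  choose y hy using hev
  refine ⟨y, fun ψ V' hV' => ?_, fun n ψ => ?_, fun m β hβ n i => ?_⟩
  · filter_upwards [(σ ψ).2.1 V' hV'] with n hn i
    rw [← hy]
    exact hn i
  · have h := (σ ψ).2.2 n
    refine h.congr fun i => ?_
    exact hy n i ψ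
  · rw [← hy]
    exact hσ' m β hβ n i

end Pool.Agent.Q203.RX
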