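import Pool.Agent.Q66.RX.Stm

/-!
Job PKX of project RX.
-/

set_option autoImplicit false

namespace Pool.Agent.Q203.RX

open Topology Filter Set MeasureTheory Pool.Agent.Q66.RX

section
variable {X : Type} [CommGroup X] [TopologicalSpace X] [IsTopologicalGroup X]
  [LocallyCompactSpace X]

theorem cont_ev (x : X) : Continuous fun χ : PontryaginDual X => (χ x : Circle) := by
  have h1 : Continuous fun q : (X →ₜ* Circle) => q x :=
    continuous_eval_const x
  exact h1

/-- the evaluation at `x` -/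
noncomputable def evx (x : X) : PontryaginDual (PontryaginDual X) :=
  ({ toFun := fun χ => χ x
     map_one' := rfl
     map_mul' := fun _ _ => rfl
     continuous_toFun := cont_ev x } : PontryaginDual X →ₜ* Circle)

theorem evx_apply (x : X) (χ : PontryaginDual X) : evx x χ = χ x := rfl

end

theorem t_PKX (hH : S_PKH) (hC : S_PKC) (h1 : S_PK1) : S_PKX := by
  intro X _ _ _ _ _ _ _ ν _ _ Ψ hΨ
  have hcl := hC X (h1 X)
  have hV : {Ξ : PontryaginDual (PontryaginDual X) |
      ¬ ∃ x : X, ∀ χ : PontryaginDual X, Ξ χ * (Ψ χ)⁻¹ = χ x} ∈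
      𝓝 (1 : PontryaginDual (PontryaginDual X)) := by
    have hcont : Continuous fun Ξ : PontryaginDual (PontryaginDual X) => Ξ * Ψ⁻¹ :=
      continuous_id.mul continuous_const
    have ho := hcl.isOpen_compl.preimage hcont
    apply ho.mem_nhds
    rintro ⟨x, hx⟩
    apply hΨ
    refine ⟨x⁻¹, fun χ => ?_⟩
    have h := hx χ
    have h2 : (Ψ χ)⁻¹ = χ x := by
      rw [← h]
      change _ = 1 * (Ψ χ)⁻¹
      rw [one_mul]
    rw [map_inv, ← h2, inv_inv]
  obtain ⟨w, hw, hw0, hw1, hw2⟩ := hH (PontryaginDual X) ν _ hV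
  refine ⟨w, hw, hw0, hw1, fun x => ?_⟩
  have h := hw2 (Ψ * evx x) (fun hn => hn ⟨x, fun χ => by
    change (Ψ χ * evx x χ) * (Ψ χ)⁻¹ = χ x
    rw [evx_apply, mul_comm (Ψ χ), mul_assoc, mul_inv_cancel, mul_one]⟩)
  rw [← h]
  apply integral_congr_ae
  filter_upwards with γ
  change (w γ : ℂ) * ((Ψ γ : Circle) : ℂ) * ((γ x : Circle) : ℂ) =
    (w γ : ℂ) * (((Ψ γ * evx x γ : Circle)) : ℂ)
  rw [evx_apply, Circle.coe_mul, mul_assoc]

end Pool.Agent.Q203.RX
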